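import Pool.Agent.X120.Soft.Dens

/-!
# Gaps in sets of integers, logarithms of neighbours
-/

set_option autoImplicit false

open Module Filter

namespace Pool.Agent.X120.Cheb

open Pool.Agent.Y916.Om Pool.Agent.Y916.Ari Pool.Agent.Y916.Al Pool.Agent.X120.Rec Pool.Agent.X120.Soft

theorem sum_gap (A : ℕ → ℝ) (hA : Monotone A) (hA0 : ∀ n, 0 ≤ A n) (X R : ℕ) :
    ∑ n ∈ Finset.range (X + 1), (A (n + R) - A n) ≤ R * A (X + R) := by
  induction R with
  | zero => simp
  | succ R ih =>
    have h1 : ∑ n ∈ Finset.range (X + 1), (A (n + (R + 1)) - A n) = ∑ n ∈ Finset.range (X + 1), (A (n + R) - A n) +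
        ∑ n ∈ Finset.range (X + 1), ((fun n => A (n + R)) (n + 1) - (fun n => A (n + R)) n) := by
      rw [← Finset.sum_add_distrib]
      refine Finset.sum_congr rfl fun n _ => ?_
      simp only
      rw [show n + 1 + R = n + (R + 1) by ring]
      ring
    rw [h1, Finset.sum_range_sub (fun n => A (n + R)) (X + 1)]
    have h2 : A (X + R) ≤ A (X + (R + 1)) := hA (by omega)
    have h3 : A (X + 1 + R) = A (X + (R + 1)) := by
      congr 1
      ring
    have h4 := hA0 (0 + R)
    rw [h3]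
    push_cast
    have h5 : (R : ℝ) * A (X + R) ≤ R * A (X + (R + 1)) := by gcongr
    nlinarith

/-- most gaps are small -/
theorem gap (a : ℕ → ℕ) (ha : StrictMono a) (hgr : ∀ m : ℕ, ∀ᶠ n in atTop, a n ^ m ≤ n ^ (m + 1)) (R E : ℕ) :
    DZ fun n => ¬ ((a (n + R) - a n + 2) ^ E ≤ a n) := by
  classical
  -- it suffices to consider positive exponents
  suffices h : ∀ E, 1 ≤ E → DZ fun n => ¬ ((a (n + R) - a n + 2) ^ E ≤ a n) by
    refine (h (E + 1) (by omega)).mono fun n hn h1 => hn (le_trans ?_ h1)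
    exact Nat.pow_le_pow_right (by omega) (by omega)
  intro E hE ε hε
  have hid : ∀ n, n ≤ a n := fun n => ha.id_le n
  obtain ⟨N, hN⟩ := (hgr (4 * E)).exists_forall_of_atTop
  obtain ⟨y₀, hy₀⟩ := exists_nat_ge (2 + 2 / ε + 8 * R / ε)
  refine ⟨max (max N R) (y₀ ^ (4 * E)), fun X hX => ?_⟩
  have hXN : N ≤ X := ((le_max_left _ _).trans (le_max_left _ _)).trans hX
  have hXR : R ≤ X := ((le_max_right _ _).trans (le_max_left _ _)).trans hX
  have hXy : y₀ ^ (4 * E) ≤ X := (le_max_right _ _).trans hX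
  have hE0 : 4 * E ≠ 0 := by omega
  set y := Nat.findGreatest (fun y => y ^ (4 * E) ≤ X) X with hy
  have hyX : y ^ (4 * E) ≤ X := Nat.findGreatest_spec (P := fun y => y ^ (4 * E) ≤ X) (Nat.zero_le X) (by
    rw [zero_pow hE0]
    exact Nat.zero_le _)
  have hyX' : X < (y + 1) ^ (4 * E) := by
    by_contra h
    push Not at h
    have h1 : y + 1 ≤ X := (Nat.le_self_pow hE0 _).trans h
    have h2 := Nat.le_findGreatest (P := fun y => y ^ (4 * E) ≤ X) h1 h
    omega
  have hy0y : y₀ ≤ y := Nat.le_findGreatest ((Nat.le_self_pow hE0 _).trans hXy) hXy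
  have hyr : 2 + 2 / ε + 8 * R / ε ≤ (y : ℝ) := hy₀.trans (by exact_mod_cast hy0y)
  have hq1 : 0 ≤ 2 / ε := by positivity
  have hq2 : 0 ≤ 8 * R / ε := by positivity
  have hy2 : (2 : ℝ) ≤ y := by linarith
  have hy2' : 2 ≤ y := by exact_mod_cast hy2
  set F : Finset ℕ := (Finset.range (X + 1)).filter fun n => y ^ 2 ≤ a (n + R) - a n + 1 with hF
  refine ⟨Finset.range (y ^ (2 * E)) ∪ F, ?_, fun n hnX hn => ?_⟩
  swap
  · by_contra hcon
    rw [Finset.mem_union, not_or, Finset.mem_range, not_lt, hF, Finset.mem_filter, not_and] at hcon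
    obtain ⟨h1, h2⟩ := hcon
    have h3 := h2 (Finset.mem_range.2 (by omega))
    refine hn ?_
    calc (a (n + R) - a n + 2) ^ E ≤ (y ^ 2) ^ E := Nat.pow_le_pow_left (by omega) _
      _ = y ^ (2 * E) := by rw [← pow_mul]
      _ ≤ n := h1
      _ ≤ a n := hid n
  · have hX0 : (0 : ℝ) ≤ X := Nat.cast_nonneg X
    -- the growth
    have hgrow : a (2 * X) ≤ 2 * X * (2 * (y + 1)) := by
      have h1 := hN (2 * X) (by omega)
      have h2 : a (2 * X) ^ (4 * E) ≤ (2 * X * (2 * (y + 1))) ^ (4 * E) := by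
        calc a (2 * X) ^ (4 * E) ≤ (2 * X) ^ (4 * E + 1) := h1
          _ = (2 * X) ^ (4 * E) * (2 * X) := pow_succ _ _
          _ ≤ (2 * X) ^ (4 * E) * (2 ^ (4 * E) * (y + 1) ^ (4 * E)) := by
              gcongr
              exact Nat.le_self_pow hE0 2
          _ = _ := by rw [← mul_pow, ← mul_pow]
      exact (Nat.pow_le_pow_iff_left hE0).1 h2
    have hmono : a (X + R) ≤ a (2 * X) := ha.monotone (by omega)
    have hsum := sum_gap (fun n => (a n : ℝ)) (fun i j hij => Nat.cast_le.2 (ha.monotone hij))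
      (fun n => Nat.cast_nonneg _) X R
    have hFc : ((y : ℝ) ^ 2 - 1) * F.card ≤ R * (2 * X * (2 * (y + 1))) := by
      calc ((y : ℝ) ^ 2 - 1) * F.card = ∑ n ∈ F, ((y : ℝ) ^ 2 - 1) := by rw [Finset.sum_const, nsmul_eq_mul]; ring
        _ ≤ ∑ n ∈ F, ((a (n + R) : ℝ) - a n) := by
            refine Finset.sum_le_sum fun n hn => ?_
            have h1 := (Finset.mem_filter.1 hn).2
            have h2 : a n ≤ a (n + R) := ha.monotone (by omega)
            have h3 : (y : ℝ) ^ 2 ≤ ((a (n + R) - a n : ℕ) : ℝ) + 1 := by exact_mod_cast h1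
            rw [Nat.cast_sub h2] at h3
            linarith
        _ ≤ ∑ n ∈ Finset.range (X + 1), ((a (n + R) : ℝ) - a n) := by
            refine Finset.sum_le_sum_of_subset_of_nonneg (Finset.filter_subset _ _) fun n _ _ => ?_
            have h2 : (a n : ℝ) ≤ a (n + R) := by exact_mod_cast ha.monotone (by omega : n ≤ n + R)
            linarith
        _ ≤ R * a (X + R) := hsum
        _ ≤ R * (2 * X * (2 * (y + 1))) := by
            have h4 : (a (X + R) : ℝ) ≤ 2 * X * (2 * (y + 1)) := by exact_mod_cast hmono.trans hgrow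
            gcongr
    have hFc' : (F.card : ℝ) ≤ ε / 2 * X := by
      have h1 : ((y : ℝ) - 1) * F.card ≤ 4 * R * X := by
        have h2 : ((y : ℝ) + 1) * (((y : ℝ) - 1) * F.card) ≤ (y + 1) * (4 * R * X) := by
          calc ((y : ℝ) + 1) * (((y : ℝ) - 1) * F.card) = ((y : ℝ) ^ 2 - 1) * F.card := by ring
            _ ≤ _ := hFc
            _ = _ := by ring
        exact le_of_mul_le_mul_left h2 (by linarith)
      have h3 : 8 * R ≤ ε * (y - 1) := by
        have h4 : 8 * R / ε ≤ (y : ℝ) - 1 := by linarith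
        rw [div_le_iff₀ hε] at h4
        linarith
      have h5 : (0 : ℝ) ≤ F.card := Nat.cast_nonneg _
      have h6 : (0 : ℝ) < y - 1 := by linarith
      have h7 : ((y : ℝ) - 1) * F.card ≤ (y - 1) * (ε / 2 * X) := by nlinarith
      exact le_of_mul_le_mul_left h7 h6
    have hsmall : ((y ^ (2 * E) : ℕ) : ℝ) ≤ ε / 2 * X := by
      have h1 : (y : ℝ) ^ (2 * E) * (y : ℝ) ^ (2 * E) ≤ X := by
        rw [← pow_add]
        have h2 : ((y ^ (4 * E) : ℕ) : ℝ) ≤ X := by exact_mod_cast hyX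
        push_cast at h2
        convert h2 using 2
        ring
      have h2 : (y : ℝ) ≤ (y : ℝ) ^ (2 * E) := le_self_pow₀ (by linarith) (by omega)
      have h3 : 2 ≤ ε * y := by
        have h4 : 2 / ε ≤ (y : ℝ) := by linarith
        rw [div_le_iff₀ hε] at h4
        linarith
      push_cast
      have h5 : 0 ≤ (y : ℝ) ^ (2 * E) := by positivity
      nlinarith
    have h1 : ((Finset.range (y ^ (2 * E)) ∪ F).card : ℝ) ≤ ((y ^ (2 * E) : ℕ) : ℝ) + F.card := by
      have h2 := Finset.card_union_le (Finset.range (y ^ (2 * E))) F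
      rw [Finset.card_range] at h2
      exact_mod_cast h2
    linarith

/-- logarithms of neighbours have no relations -/
theorem norel_nat (r Δ : ℕ) : ∃ E : ℕ, ∀ (N H : ℕ) (b : Fin r → ℕ), Function.Injective b → (∀ i, 1 ≤ b i ∧ b i ≤ H) →
    (H + 2) ^ E ≤ N → NoRel (fun i => Complex.log (1 + (b i : ℂ) / N)) Δ := by
  classical
  obtain ⟨E, hE⟩ := windowH r 1 Δ 0 1 1 1 1
  refine ⟨E, fun N H b hb hbH hN P hP hP0 => ?_⟩
  have hNr : ((H : ℝ) + 2) ^ E ≤ N := by exact_mod_cast hN
  have hcoe : (((N : ℕ) : (⊥ : IntermediateField ℚ ℂ)) : ℂ) = N := by push_cast; rfl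
  have hnorm : ‖(((N : ℕ) : (⊥ : IntermediateField ℚ ℂ)) : ℂ)‖ = N := by rw [hcoe, Complex.norm_natCast]
  have hNpos : 1 ≤ N := le_trans (Nat.one_le_pow _ _ (by omega)) hN
  have hPt : Pt (⊥ : IntermediateField ℚ ℂ) ((N : ℕ) : (⊥ : IntermediateField ℚ ℂ)) N := by
    refine ⟨(N : ℕ), 1, ?_, isIntegral_one, one_ne_zero, by rw [div_one], fun σ => ⟨?_, ?_⟩⟩
    · have h1 : (((N : ℕ) : (⊥ : IntermediateField ℚ ℂ))) = algebraMap ℤ _ (N : ℤ) := by
        rw [eq_intCast]
        push_cast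
        rfl
      rw [h1]
      exact isIntegral_algebraMap
    · rw [map_natCast, Complex.norm_natCast]
    · rw [map_one, norm_one]
      exact_mod_cast hNpos
  obtain ⟨S, hS, hwin⟩ := hE H ⊥ ((N : ℕ) : (⊥ : IntermediateField ℚ ℂ)) N inferInstance
    (by rw [IntermediateField.finrank_bot]) hPt (by rw [hnorm]; exact hNr) (by rw [hnorm, pow_one])
    (Fin 0) (fun i => i.elim0) Finset.univ (by simp) (Dom.univ _)
  have hS0 : S = ∅ := Finset.card_eq_zero.1 (Nat.le_zero.1 hS)
  subst hS0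
  have h1 := hwin (fun i => (b i : ℂ)) (fun i j hij => hb (Nat.cast_injective hij))
    (fun i => ⟨Finset.notMem_empty _, by have := (hbH i).1; exact_mod_cast (by omega : b i ≠ 0), by
      refine ⟨Polynomial.X - Polynomial.C (b i : ℤ), Polynomial.X_sub_C_ne_zero _,
        (Polynomial.natDegree_X_sub_C_le _), fun l => ?_, by simp⟩
      have h2 := hbH i
      rw [Polynomial.coeff_sub, Polynomial.coeff_X, Polynomial.coeff_C]
      rcases l with _ | _ | l
      · simp
        omega
      · simp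
        omega
      · simp⟩)
    ⊥ inferInstance (by rw [IntermediateField.finrank_bot]) (fun i => Complex.log (1 + (b i : ℂ) / N))
    (fun i => ⟨1, one_ne_zero, by simp [hcoe]⟩)
    (MvPolynomial.rename Sum.inr (MvPolynomial.map (algebraMap ℚ (⊥ : IntermediateField ℚ ℂ)) P))
    ((MvPolynomial.totalDegree_rename_le _ _).trans
      ((Finset.sup_mono (MvPolynomial.support_map_subset _ _)).trans hP)) (by
      rw [MvPolynomial.aeval_rename, MvPolynomial.aeval_map_algebraMap]
      exact hP0)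
  rw [MvPolynomial.aeval_rename, MvPolynomial.aeval_map_algebraMap] at h1
  have h2 : (MvPolynomial.map (algebraMap ℚ ℂ) P : MvPolynomial (Fin r) ℂ) = 0 := by
    rw [← MvPolynomial.aeval_X_left_apply (MvPolynomial.map (algebraMap ℚ ℂ) P), MvPolynomial.aeval_map_algebraMap]
    exact h1
  exact MvPolynomial.map_injective _ (algebraMap ℚ ℂ).injective (h2.trans (map_zero _).symm)

end Pool.Agent.X120.Cheb
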