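import Pool.Agent.X120.Cheb.Gap

/-!
# Sums of logarithms over sets of integers
-/

set_option autoImplicit false

open Module Filter

namespace Pool.Agent.X120.Cheb

open Pool.Agent.Y916.Om Pool.Agent.Y916.Ari Pool.Agent.Y916.Al Pool.Agent.X120.Rec Pool.Agent.X120.Soft

/-- the coefficients: `c (n + 1), ..., c (n + s g)` for the sum, a unit vector for the logarithms -/
def Mf (c : ℕ → ℚ) (s n g : ℕ) {r : ℕ} : Option (Fin (r + 1)) → ℕ → ℚ
  | none, i => if i < s * g then c (n + i + 1) else 0
  | some j, i => if i + 1 = s * g + j then 1 else 0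

theorem Mf_supp (c : ℕ → ℚ) {s r : ℕ} (hs : s = r + 2) (n g : ℕ) (t : Option (Fin (r + 1))) (i : ℕ)
    (hi : s * (g + 1) ≤ i) : Mf c s n g t i = 0 := by
  have h : s * (g + 1) = s * g + s := by ring
  rcases t with _ | j
  · rw [Mf, if_neg (by omega)]
  · rw [Mf, if_neg]
    have := j.2
    omega

theorem indep_rows (c : ℕ → ℚ) (hc : ∀ n, c n ≠ 0) {s r : ℕ} (hs : s = r + 2) (n L : ℕ) :
    LinearIndependent ℚ (fun (p : Fin L × Option (Fin (r + 1))) (i : Fin (s * (L + 1))) =>
      Mf c s n (p.1 + 1) p.2 i) := by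
  classical
  rw [Fintype.linearIndependent_iff]
  intro lam hlam
  have hev : ∀ i : ℕ, i < s * (L + 1) → ∑ g : Fin L, (lam (g, none) * Mf c s n (g + 1) (none : Option (Fin (r + 1))) i +
      ∑ j : Fin (r + 1), lam (g, some j) * Mf c s n (g + 1) (some j) i) = 0 := by
    intro i hi
    have h1 := congrFun hlam ⟨i, hi⟩
    rw [Finset.sum_apply] at h1
    simp only [Pi.smul_apply, smul_eq_mul, Pi.zero_apply] at h1
    rw [Fintype.sum_prod_type] at h1
    rw [← h1]
    exact Finset.sum_congr rfl fun g _ => by rw [Fintype.sum_option]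
  have hmul : ∀ g : ℕ, s * (g + 1) = s * g + s := fun g => by ring
  -- the sums
  have hnone : ∀ g : Fin L, lam (g, none) = 0 := by
    by_contra hcon
    push Not at hcon
    obtain ⟨g₀, hg₀⟩ := hcon
    set S : Finset (Fin L) := Finset.univ.filter fun g => lam (g, none) ≠ 0 with hS
    have hSn : S.Nonempty := ⟨g₀, Finset.mem_filter.2 ⟨Finset.mem_univ _, hg₀⟩⟩
    set g := S.max' hSn with hg
    have hgm : lam (g, none) ≠ 0 := (Finset.mem_filter.1 (S.max'_mem hSn)).2
    have hgL := g.2
    have h0 : s * ((g : ℕ) + 1) ≤ s * L := Nat.mul_le_mul_left _ (by omega)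
    have h1 := hev (s * (g + 1) - 2) (by rw [hmul L]; omega)
    rw [Finset.sum_eq_single g] at h1
    · rw [Finset.sum_eq_zero, add_zero, Mf, if_pos (by rw [hmul]; omega)] at h1
      · exact (mul_ne_zero hgm (hc _)) h1
      · intro j _
        have hj := j.2
        have h2 := hmul g
        rw [Mf, if_neg (by omega), mul_zero]
    · intro g' _ hg'
      have hz : ∀ j : Fin (r + 1), Mf c s n (g' + 1) (some j) (s * (g + 1) - 2) = 0 := by
        intro j
        have hj := j.2
        rw [Mf, if_neg]
        intro h3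
        have h4 : s * (g + 1) = s * (g' + 1) + (j + 1) := by
          have := hmul g
          omega
        have h5 : (s * (g' + 1) + (j + 1)) % s = j + 1 := by
          rw [Nat.mul_add_mod, Nat.mod_eq_of_lt (by omega)]
        rw [← h4, Nat.mul_mod_right] at h5
        omega
      rw [Finset.sum_eq_zero fun j _ => by rw [hz j, mul_zero], add_zero]
      rcases lt_or_gt_of_ne hg' with h | h
      · have h' : (g' : ℕ) < g := h
        have h3 : s * ((g' : ℕ) + 1) ≤ s * g := Nat.mul_le_mul_left _ (by omega)
        have h4 := hmul g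
        rw [Mf, if_neg (by omega), mul_zero]
      · have h4 : lam (g', none) = 0 := by
          by_contra h5
          have h6 := S.le_max' g' (Finset.mem_filter.2 ⟨Finset.mem_univ _, h5⟩)
          exact absurd h6 (not_le.2 h)
        rw [h4, zero_mul]
    · intro h
      exact absurd (Finset.mem_univ _) h
  rintro ⟨g, _ | j⟩
  · exact hnone g
  · have hgL := g.2
    have hj := j.2
    have h0 : s * ((g : ℕ) + 1) ≤ s * L := Nat.mul_le_mul_left _ (by omega)
    have h2 := hmul g
    have h1 := hev (s * (g + 1) + j - 1) (by rw [hmul L]; omega)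
    rw [Finset.sum_eq_single g] at h1
    · rw [hnone g, zero_mul, zero_add, Finset.sum_eq_single j] at h1
      · rw [Mf, if_pos (by omega), mul_one] at h1
        exact h1
      · intro j' _ hj'
        rw [Mf, if_neg, mul_zero]
        intro h3
        apply hj'
        apply Fin.ext
        omega
      · intro h
        exact absurd (Finset.mem_univ _) h
    · intro g' _ hg'
      rw [hnone g', zero_mul, zero_add]
      refine Finset.sum_eq_zero fun j' _ => ?_
      have hj' := j'.2
      rw [Mf, if_neg, mul_zero]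
      intro h3
      have h4 : s * (g + 1) + j = s * (g' + 1) + j' := by omega
      have h5 : (s * ((g : ℕ) + 1) + j) / s = g + 1 := by
        rw [Nat.mul_add_div (by omega), Nat.div_eq_of_lt (by omega), add_zero]
      have h6 : (s * ((g' : ℕ) + 1) + j') / s = g' + 1 := by
        rw [Nat.mul_add_div (by omega), Nat.div_eq_of_lt (by omega), add_zero]
      rw [h4, h6] at h5
      apply hg'
      apply Fin.ext
      omega
    · intro h
      exact absurd (Finset.mem_univ _) h

/-- the sum of the logarithms and the logarithms of the next elements -/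
noncomputable def xs (a : ℕ → ℕ) (c : ℕ → ℚ) (r n : ℕ) : Option (Fin (r + 1)) → ℂ
  | none => ((∑ i ∈ Finset.range (n + 1), (c i : ℝ) * Real.log (a i) : ℝ) : ℂ)
  | some j => ((Real.log (a (n + j)) : ℝ) : ℂ)

theorem rareC (a : ℕ → ℕ) (ha : StrictMono a) (ha0 : 0 < a 0)
    (hgr : ∀ m : ℕ, ∀ᶠ n in atTop, a n ^ m ≤ n ^ (m + 1)) (c : ℕ → ℚ) (hc : ∀ n, c n ≠ 0) (r : ℕ) :
    Rare fun n => xs a c r n := by
  classical
  set s := r + 2 with hs
  have hapos : ∀ n, 0 < a n := fun n => lt_of_lt_of_le ha0 (ha.monotone (Nat.zero_le n))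
  set y : ℕ → ℕ → ℂ := fun n i => Complex.log (1 + ((a (n + i + 1) - a n : ℕ) : ℂ) / a n) with hy
  set val : ℕ → ℕ → Option (Fin (r + 1)) → ℂ := fun n g t =>
    ∑ i ∈ Finset.range (s * (g + 1)), ((Mf c s n g t i : ℚ) : ℂ) * y n i with hval
  have hyr : ∀ n i, y n i = ((Real.log (a (n + i + 1)) - Real.log (a n) : ℝ) : ℂ) := by
    intro n i
    have h1 : (0 : ℝ) < a n := by exact_mod_cast hapos n
    have h2 : (0 : ℝ) < a (n + i + 1) := by exact_mod_cast hapos (n + i + 1)
    have h3 : a n ≤ a (n + i + 1) := ha.monotone (by omega)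
    have h4 : (1 + ((a (n + i + 1) - a n : ℕ) : ℂ) / a n) = ((a (n + i + 1) / a n : ℝ) : ℂ) := by
      rw [Nat.cast_sub h3]
      have h5 : (a n : ℂ) ≠ 0 := by exact_mod_cast (hapos n).ne'
      push_cast
      field_simp
      ring
    rw [hy]
    simp only
    rw [h4, ← Complex.ofReal_log (by positivity), Real.log_div h2.ne' h1.ne']
  refine rare_dens (fun n => xs a c r n) s (by omega) val 2 (fun _ => False)
    ((DZ.lt 0).mono fun n hn => hn.elim) (fun L Δ => ?_) fun n _ => ?_
  · obtain ⟨E, hE⟩ := norel_nat (s * (L + 1)) Δ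
    refine (gap a ha hgr (s * (L + 1)) E).mono fun n hn hgap => hn ?_
    have h1 := hE (a n) (a (n + s * (L + 1)) - a n) (fun i => a (n + i + 1) - a n) (fun i j hij => by
      have h2 : a n ≤ a (n + i + 1) := ha.monotone (by omega)
      have h3 : a n ≤ a (n + j + 1) := ha.monotone (by omega)
      have h4 : a (n + i + 1) = a (n + j + 1) := by
        simp only at hij
        omega
      have h5 := ha.injective h4
      exact Fin.ext (by omega)) (fun i => by
      have h2 : a n < a (n + i + 1) := ha (by omega)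
      have h3 : a (n + i + 1) ≤ a (n + s * (L + 1)) := ha.monotone (by have := i.2; omega)
      omega) hgap
    have h2 := norel_linear h1 _ (indep_rows c hc hs n L)
    have h3 : (fun p : Fin L × Option (Fin (r + 1)) => val n (p.1 + 1) p.2) = fun p =>
        ∑ t : Fin (s * (L + 1)), ((Mf c s n (p.1 + 1) p.2 t : ℚ) : ℂ) *
          Complex.log (1 + ((a (n + t + 1) - a n : ℕ) : ℂ) / a n) := by
      funext p
      have h4 : s * ((p.1 : ℕ) + 1 + 1) ≤ s * (L + 1) := Nat.mul_le_mul_left _ (by have := p.1.2; omega)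
      rw [Fin.sum_univ_eq_sum_range (fun i => ((Mf c s n (p.1 + 1) p.2 i : ℚ) : ℂ) *
        Complex.log (1 + ((a (n + i + 1) - a n : ℕ) : ℂ) / a n)) (s * (L + 1))]
      refine Finset.sum_subset (Finset.range_subset_range.2 h4) fun i _ hi => ?_
      rw [Finset.mem_range, not_lt] at hi
      rw [Mf_supp c hs n _ p.2 i hi, Rat.cast_zero, zero_mul]
    rw [h3]
    exact h2
  · refine ⟨![((∑ i ∈ Finset.range (n + 1), (c i : ℝ) * Real.log (a i) : ℝ) : ℂ), ((Real.log (a n) : ℝ) : ℂ)],
      fun g hg t => ?_⟩
    set W : Submodule ℚ ℂ := Submodule.span ℚ (insert 1 (Set.range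
      ![((∑ i ∈ Finset.range (n + 1), (c i : ℝ) * Real.log (a i) : ℝ) : ℂ), ((Real.log (a n) : ℝ) : ℂ)])) with hW
    have hw0 : ((∑ i ∈ Finset.range (n + 1), (c i : ℝ) * Real.log (a i) : ℝ) : ℂ) ∈ W :=
      Submodule.subset_span (Set.mem_insert_of_mem _ ⟨0, rfl⟩)
    have hw1 : ((Real.log (a n) : ℝ) : ℂ) ∈ W := Submodule.subset_span (Set.mem_insert_of_mem _ ⟨1, rfl⟩)
    have hsg : 1 ≤ s * g := Nat.mul_pos (by omega) (by omega)
    rcases t with _ | j
    · have h1 : val n g none = ((∑ i ∈ Finset.range (s * g), (c (n + 1 + i) : ℝ) *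
          (Real.log (a (n + 1 + i)) - Real.log (a n)) : ℝ) : ℂ) := by
        rw [hval]
        simp only
        have h4 : s * g ≤ s * (g + 1) := Nat.mul_le_mul_left _ (by omega)
        rw [← Finset.sum_subset (Finset.range_subset_range.2 h4) fun i _ hi => ?_]
        · push_cast
          refine Finset.sum_congr rfl fun i hi => ?_
          rw [Mf, if_pos (Finset.mem_range.1 hi), hyr]
          rw [show n + 1 + i = n + i + 1 by ring]
          push_cast
          rfl
        · rw [Finset.mem_range, not_lt] at hi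
          rw [Mf, if_neg (by omega), Rat.cast_zero, zero_mul]
      have h2 : xs a c r (n + s * g) none - val n g none =
          ((∑ i ∈ Finset.range (n + 1), (c i : ℝ) * Real.log (a i) : ℝ) : ℂ) +
          (∑ i ∈ Finset.range (s * g), c (n + 1 + i)) • ((Real.log (a n) : ℝ) : ℂ) := by
        rw [h1, xs, show n + s * g + 1 = (n + 1) + s * g by ring, Finset.sum_range_add, Rat.smul_def]
        push_cast
        simp only [mul_sub, Finset.sum_sub_distrib, ← Finset.sum_mul]
        ring
      rw [h2]
      exact Submodule.add_mem _ hw0 (Submodule.smul_mem _ _ hw1)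
    · have hj := j.2
      have h1 : val n g (some j) = ((Real.log (a (n + s * g + j)) - Real.log (a n) : ℝ) : ℂ) := by
        rw [hval]
        simp only
        rw [Finset.sum_eq_single (s * g + j - 1)]
        · rw [Mf, if_pos (by omega), hyr, Rat.cast_one, one_mul]
          rw [show n + (s * g + j - 1) + 1 = n + s * g + j by omega]
        · intro i _ hi
          rw [Mf, if_neg (by omega), Rat.cast_zero, zero_mul]
        · intro h
          exfalso
          apply h
          rw [Finset.mem_range, show s * (g + 1) = s * g + s by ring]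
          omega
      rw [h1, xs]
      have h2 : ((Real.log (a (n + s * g + j)) : ℝ) : ℂ) - ((Real.log (a (n + s * g + j)) - Real.log (a n) : ℝ) : ℂ) =
          ((Real.log (a n) : ℝ) : ℂ) := by
        push_cast
        ring
      rw [h2]
      exact hw1

end Pool.Agent.X120.Cheb
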